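import Pool.Agent.H798.BV.Stm5

/-! # BV/EP (helper333 for helper798): the end point bound -/

set_option autoImplicit false

namespace Pool.Agent.H333.BV

open Pool.Agent.H798.BV

theorem ep_var {n : ℕ} (S x : Fin n → ℝ) (c : ℝ) (h1 : ∑ j, S j = 1) (h2 : ∑ j, S j * x j = c) :
    ∑ j, S j * (x j - c) ^ 2 = ∑ j, S j * x j ^ 2 - c ^ 2 := by
  have h : ∀ j, S j * (x j - c) ^ 2 = S j * x j ^ 2 - 2 * c * (S j * x j) + c ^ 2 * S j :=
    fun j => by ring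
  rw [Finset.sum_congr rfl fun j _ => h j, Finset.sum_add_distrib, Finset.sum_sub_distrib,
    ← Finset.mul_sum, ← Finset.mul_sum, h1, h2]
  ring

theorem ep_cvar {n : ℕ} (S : Fin n → ℝ) (z : Fin n → ℂ) (w : ℂ) (h0 : ∀ j, 0 ≤ S j)
    (h1 : ∑ j, S j = 1) (h2 : w = ∑ j, (S j : ℂ) * z j) (hz : ∀ j, ‖z j‖ ≤ 1) :
    ∑ j, S j * ‖z j - w‖ ^ 2 ≤ 1 - ‖w‖ ^ 2 := by
  have hr : ∑ j, S j * (z j).re = w.re := by
    rw [h2, Complex.re_sum]
    exact Finset.sum_congr rfl fun j _ => by rw [Complex.re_ofReal_mul]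
  have hi : ∑ j, S j * (z j).im = w.im := by
    rw [h2, Complex.im_sum]
    exact Finset.sum_congr rfl fun j _ => by rw [Complex.im_ofReal_mul]
  have e1 := ep_var S (fun j => (z j).re) w.re h1 hr
  have e2 := ep_var S (fun j => (z j).im) w.im h1 hi
  have hn : ∀ v : ℂ, ‖v‖ ^ 2 = v.re ^ 2 + v.im ^ 2 := fun v => by
    rw [← Complex.normSq_eq_norm_sq, Complex.normSq_apply]
    ring
  have e3 : ∑ j, S j * ‖z j - w‖ ^ 2 = ∑ j, S j * ‖z j‖ ^ 2 - ‖w‖ ^ 2 := by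
    have f1 : ∑ j, S j * ‖z j - w‖ ^ 2 =
        ∑ j, (S j * ((z j).re - w.re) ^ 2 + S j * ((z j).im - w.im) ^ 2) := by
      refine Finset.sum_congr rfl fun j _ => ?_
      rw [hn, Complex.sub_re, Complex.sub_im]
      ring
    have f2 : ∑ j, S j * ‖z j‖ ^ 2 = ∑ j, S j * (z j).re ^ 2 + ∑ j, S j * (z j).im ^ 2 := by
      rw [← Finset.sum_add_distrib]
      refine Finset.sum_congr rfl fun j _ => ?_
      rw [hn]
      ring
    rw [f1, f2, Finset.sum_add_distrib, e1, e2, hn w]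
    ring
  have e4 : ∑ j, S j * ‖z j‖ ^ 2 ≤ ∑ j, S j := by
    refine Finset.sum_le_sum fun j _ => ?_
    exact mul_le_of_le_one_right (h0 j) (pow_le_one₀ (norm_nonneg _) (hz j))
  rw [h1] at e4
  linarith

theorem ep_log {x y c d : ℝ} (hc : 0 < c) (hd : x ≤ y + d) (hd0 : 0 ≤ d) :
    Real.log (max x c) ≤ Real.log (max y c) + 1 / c * d := by
  have hx : 0 < max x c := lt_max_of_lt_right hc
  have hy : 0 < max y c := lt_max_of_lt_right hc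
  have h1 : Real.log (max x c) - Real.log (max y c) ≤ max x c / max y c - 1 := by
    rw [← Real.log_div hx.ne' hy.ne']
    exact Real.log_le_sub_one_of_pos (div_pos hx hy)
  have h2 : max x c ≤ max y c + d := by
    apply max_le
    · have := le_max_left y c
      linarith
    · have := le_max_right y c
      linarith
  have h3 : max x c / max y c - 1 ≤ 1 / c * d := by
    rw [div_sub_one hy.ne', div_le_iff₀ hy]
    have h4 : 1 ≤ 1 / c * max y c := by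
      rw [one_div, ← div_eq_inv_mul, one_le_div hc]
      exact le_max_right _ _
    have h5 : d * 1 ≤ d * (1 / c * max y c) := mul_le_mul_of_nonneg_left h4 hd0
    have h6 : 1 / c * d * max y c = d * (1 / c * max y c) := by ring
    rw [h6]
    linarith
  linarith

/-- the mean of the distances -/
theorem ep_dist {n : ℕ} (S : Fin n → ℝ) (z : Fin n → ℂ) (w : ℂ) (s : ℝ) (hs : 0 < s)
    (h0 : ∀ j, 0 ≤ S j) (h1 : ∑ j, S j = 1) (h2 : w = ∑ j, (S j : ℂ) * z j)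
    (hz : ∀ j, ‖z j‖ ≤ 1) (hw : ‖w‖ ≤ 1) :
    ∑ j, S j * ‖z j - w‖ ≤ s + 1 / (2 * s) * (1 - ‖w‖) := by
  have hv := ep_cvar S z w h0 h1 h2 hz
  have e1 : ∑ j, S j * ‖z j - w‖ ≤ ∑ j, (s * S j + 1 / (4 * s) * (S j * ‖z j - w‖ ^ 2)) := by
    refine Finset.sum_le_sum fun j _ => ?_
    have h3 : ‖z j - w‖ ≤ s + 1 / (4 * s) * ‖z j - w‖ ^ 2 := by
      have h4 : s + 1 / (4 * s) * ‖z j - w‖ ^ 2 - ‖z j - w‖ =
          1 / (4 * s) * (‖z j - w‖ - 2 * s) ^ 2 := by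
        field_simp
        ring
      have h5 : 0 ≤ 1 / (4 * s) * (‖z j - w‖ - 2 * s) ^ 2 := by positivity
      linarith
    have h6 := mul_le_mul_of_nonneg_left h3 (h0 j)
    linarith
  rw [Finset.sum_add_distrib, ← Finset.mul_sum, ← Finset.mul_sum, h1, mul_one] at e1
  have e2 : 1 - ‖w‖ ^ 2 ≤ 2 * (1 - ‖w‖) := by nlinarith [norm_nonneg w]
  have e3 : 1 / (4 * s) * ∑ j, S j * ‖z j - w‖ ^ 2 ≤ 1 / (4 * s) * (2 * (1 - ‖w‖)) :=
    mul_le_mul_of_nonneg_left (hv.trans e2) (by positivity)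
  have e4 : 1 / (4 * s) * (2 * (1 - ‖w‖)) = 1 / (2 * s) * (1 - ‖w‖) := by
    field_simp
    ring
  linarith

/-- the sum of the logarithms over the zeros and over the critical points -/
theorem ep_sum {m : ℕ} (hm : 1 ≤ m) (z : Fin (m + 1) → ℂ) (w : Fin m → ℂ)
    (S : Fin m → Fin (m + 1) → ℝ) (hS0 : ∀ k j, 0 ≤ S k j) (hS1 : ∀ k, ∑ j, S k j = 1)
    (hS2 : ∀ j, ∑ k, S k j = (m : ℝ) / (m + 1)) (hSw : ∀ k, w k = ∑ j, (S k j : ℂ) * z j)
    (hz : ∀ j, ‖z j‖ ≤ 1) (hw : ∀ k, ‖w k‖ ≤ 1) (δ c : ℝ) (hδ : 0 < δ) (hc : 0 < c)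
    (hW : ∑ k, (1 - ‖w k‖) ≤ 2 * (δ * m)) (x : ℂ) (h3 : ∀ j, max ‖x - z j‖ c ≤ 3) :
    ∑ j, Real.log (max ‖x - z j‖ c) ≤
      ∑ k, Real.log (max ‖x - w k‖ c) + 1 / c * (2 * m * Real.sqrt δ) + Real.log 3 := by
  have hm0 : (0 : ℝ) < m := by exact_mod_cast hm
  have hs : 0 < Real.sqrt δ := Real.sqrt_pos.2 hδ
  have hss : Real.sqrt δ * Real.sqrt δ = δ := Real.mul_self_sqrt hδ.le
  have e1 : ∑ k, ∑ j, S k j * Real.log (max ‖x - z j‖ c) =
      (m : ℝ) / (m + 1) * ∑ j, Real.log (max ‖x - z j‖ c) := by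
    rw [Finset.sum_comm, Finset.mul_sum]
    refine Finset.sum_congr rfl fun j _ => ?_
    rw [← Finset.sum_mul, hS2]
  have e2 : ∑ j, Real.log (max ‖x - z j‖ c) ≤ (m + 1) * Real.log 3 := by
    have : ∑ j, Real.log (max ‖x - z j‖ c) ≤ ∑ _j : Fin (m + 1), Real.log 3 :=
      Finset.sum_le_sum fun j _ => Real.log_le_log (lt_max_of_lt_right hc) (h3 j)
    refine this.trans (le_of_eq ?_)
    rw [Finset.sum_const, Finset.card_univ, Fintype.card_fin, nsmul_eq_mul]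
    push_cast
    ring
  have e3 : ∑ j, Real.log (max ‖x - z j‖ c) ≤
      ∑ k, ∑ j, S k j * Real.log (max ‖x - z j‖ c) + Real.log 3 := by
    rw [e1]
    have h4 : ∑ j, Real.log (max ‖x - z j‖ c) = (m : ℝ) / (m + 1) * ∑ j, Real.log (max ‖x - z j‖ c)
        + 1 / ((m : ℝ) + 1) * ∑ j, Real.log (max ‖x - z j‖ c) := by
      field_simp
    have h5 : 1 / ((m : ℝ) + 1) * ∑ j, Real.log (max ‖x - z j‖ c) ≤
        1 / ((m : ℝ) + 1) * ((m + 1) * Real.log 3) :=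
      mul_le_mul_of_nonneg_left e2 (by positivity)
    have h6 : 1 / ((m : ℝ) + 1) * ((m + 1) * Real.log 3) = Real.log 3 := by
      field_simp
    linarith
  have e4 : ∀ k, ∑ j, S k j * Real.log (max ‖x - z j‖ c) ≤ Real.log (max ‖x - w k‖ c) +
      1 / c * (Real.sqrt δ + 1 / (2 * Real.sqrt δ) * (1 - ‖w k‖)) := by
    intro k
    have h7 : ∑ j, S k j * Real.log (max ‖x - z j‖ c) ≤
        ∑ j, (Real.log (max ‖x - w k‖ c) * S k j + 1 / c * (S k j * ‖z j - w k‖)) := by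
      refine Finset.sum_le_sum fun j _ => ?_
      have h8 : ‖x - z j‖ ≤ ‖x - w k‖ + ‖z j - w k‖ := by
        have : x - z j = (x - w k) - (z j - w k) := by ring
        rw [this]
        exact norm_sub_le _ _
      have h9 := mul_le_mul_of_nonneg_left (ep_log hc h8 (norm_nonneg _)) (hS0 k j)
      refine h9.trans (le_of_eq ?_)
      ring
    rw [Finset.sum_add_distrib, ← Finset.mul_sum, ← Finset.mul_sum, hS1, mul_one] at h7
    have h10 := ep_dist (S k) z (w k) (Real.sqrt δ) hs (hS0 k) (hS1 k) (hSw k) hz (hw k)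
    have h11 : 1 / c * ∑ j, S k j * ‖z j - w k‖ ≤
        1 / c * (Real.sqrt δ + 1 / (2 * Real.sqrt δ) * (1 - ‖w k‖)) :=
      mul_le_mul_of_nonneg_left h10 (by positivity)
    linarith
  have e5 : ∑ k, ∑ j, S k j * Real.log (max ‖x - z j‖ c) ≤
      ∑ k, Real.log (max ‖x - w k‖ c) + 1 / c * (2 * m * Real.sqrt δ) := by
    refine (Finset.sum_le_sum fun k _ => e4 k).trans ?_
    rw [Finset.sum_add_distrib, ← Finset.mul_sum, Finset.sum_add_distrib, ← Finset.mul_sum,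
      Finset.sum_const, Finset.card_univ, Fintype.card_fin, nsmul_eq_mul]
    have h12 : 1 / (2 * Real.sqrt δ) * ∑ k, (1 - ‖w k‖) ≤ m * Real.sqrt δ := by
      have h13 : 1 / (2 * Real.sqrt δ) * ∑ k, (1 - ‖w k‖) ≤
          1 / (2 * Real.sqrt δ) * (2 * (δ * m)) :=
        mul_le_mul_of_nonneg_left hW (by positivity)
      have h14 : 1 / (2 * Real.sqrt δ) * (2 * (δ * m)) = m * Real.sqrt δ := by
        rw [div_mul_eq_mul_div, one_mul, div_eq_iff (by positivity)]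
        calc 2 * (δ * m) = 2 * ((Real.sqrt δ * Real.sqrt δ) * m) := by rw [hss]
          _ = m * Real.sqrt δ * (2 * Real.sqrt δ) := by ring
      linarith
    have h15 : 1 / c * (m * Real.sqrt δ + 1 / (2 * Real.sqrt δ) * ∑ k, (1 - ‖w k‖)) ≤
        1 / c * (2 * m * Real.sqrt δ) :=
      mul_le_mul_of_nonneg_left (by linarith) (by positivity)
    linarith
  linarith

theorem prod_max_eq {ι : Type*} (s : Finset ι) (f : ι → ℝ) (hf : ∀ i ∈ s, 0 < f i) :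
    Real.exp (∑ i ∈ s, Real.log (f i)) = ∏ i ∈ s, f i := by
  rw [Real.exp_sum]
  exact Finset.prod_congr rfl fun i hi => Real.exp_log (hf i hi)

/-- EP -/
theorem t_EP (h1 : S_PM) (h2 : S_F0U) : S_EP := by
  intro m z w a r δ hm hcrit hz0 ha0 har hr1 hz hwa hw hδ0 hδ1 hsum hlow
  obtain ⟨l, hl⟩ : ∃ l : Fin m → ℂ, l = fun k => ((a : ℂ) - w k)⁻¹ := ⟨_, rfl⟩
  have hlk : ∀ k, ((a : ℂ) - w k)⁻¹ = l k := fun k => by rw [hl]
  rw [← hl]
  intro ω ρ hω hρ0 hρ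
  obtain ⟨S, hS0, hS1, hS2, hSw⟩ := h1 m z w hcrit
  have hF := h2 m z w a hcrit hz0 hwa ω ρ hω
  simp only [hlk] at hF hsum hlow
  have hm0 : (0 : ℝ) < m := by exact_mod_cast hm
  have hr : 0 < 1 - r := by linarith
  have hne : ∀ k, (a : ℂ) - w k ≠ 0 := fun k => sub_ne_zero.2 (hwa k).symm
  have hal : ∀ k, ((a : ℂ) - w k) * l k = 1 := fun k => by
    rw [← hlk, mul_inv_cancel₀ (hne k)]
  have hN : ∀ k, ‖(a : ℂ) - w k‖ * ‖l k‖ = 1 := fun k => by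
    rw [← norm_mul, hal, norm_one]
  have hNpos : ∀ k, 0 < ‖(a : ℂ) - w k‖ := fun k => norm_pos_iff.2 (hne k)
  have hlpos : ∀ k, 0 < ‖l k‖ := fun k => by
    rw [← hlk]
    exact norm_pos_iff.2 (inv_ne_zero (hne k))
  have hna : ‖(a : ℂ)‖ = a := by rw [Complex.norm_real, Real.norm_of_nonneg ha0]
  have hone : ∀ k, ‖1 - (a : ℂ) * l k‖ = ‖w k‖ * ‖l k‖ := fun k => by
    have h3 : 1 - (a : ℂ) * l k = -(w k * l k) := by
      rw [← hal k]
      ring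
    rw [h3, norm_neg, norm_mul]
  have hD : ∑ k, (1 - ‖w k‖) * ‖l k‖ ≤ δ * m := by
    have h3 : ∑ k, (1 - ‖w k‖) * ‖l k‖ = ∑ k, ‖l k‖ - ∑ k, ‖1 - (a : ℂ) * l k‖ := by
      rw [← Finset.sum_sub_distrib]
      refine Finset.sum_congr rfl fun k _ => ?_
      rw [hone]
      ring
    rw [h3]
    linarith
  have hw0 : ∀ k, 0 ≤ 1 - ‖w k‖ := fun k => by linarith [hw k]
  have hhalf : ∀ k, 1 / 2 ≤ ‖l k‖ := fun k => by
    have h3 : ‖(a : ℂ) - w k‖ ≤ 2 := by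
      refine (norm_sub_le _ _).trans ?_
      rw [hna]
      linarith [hw k]
    have h4 := hN k
    nlinarith [hlpos k]
  have hW : ∑ k, (1 - ‖w k‖) ≤ 2 * (δ * m) := by
    have h3 : ∑ k, (1 - ‖w k‖) ≤ ∑ k, 2 * ((1 - ‖w k‖) * ‖l k‖) := by
      refine Finset.sum_le_sum fun k _ => ?_
      have h5 := mul_le_mul_of_nonneg_left (hhalf k) (hw0 k)
      linarith
    rw [← Finset.mul_sum] at h3
    linarith
  obtain ⟨x, hx⟩ : ∃ x : ℂ, x = (a : ℂ) - (ρ : ℂ) * ω := ⟨_, rfl⟩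
  rw [← hx] at hF
  have hxn : ‖(ρ : ℂ) * ω‖ = ρ := by
    rw [norm_mul, hω, mul_one, Complex.norm_real, Real.norm_of_nonneg hρ0.le]
  obtain ⟨c, hc⟩ : ∃ c : ℝ, c = (1 - r) / 4 := ⟨_, rfl⟩
  have hc0 : 0 < c := by rw [hc]; linarith
  have hc1 : c ≤ 1 := by rw [hc]; linarith
  have h3 : ∀ j, max ‖x - z j‖ c ≤ 3 := fun j => by
    refine max_le ?_ (by linarith)
    have h4 : ‖x - z j‖ ≤ ‖x‖ + ‖z j‖ := norm_sub_le _ _
    have h5 : ‖x‖ ≤ ‖(a : ℂ)‖ + ‖(ρ : ℂ) * ω‖ := by rw [hx]; exact norm_sub_le _ _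
    rw [hna, hxn] at h5
    linarith [hz j]
  have hA := ep_sum hm z w S hS0 hS1 hS2 hSw hz hw δ c hδ0 hc0 hW x h3
  -- exponentiate
  have hB : ∏ j, ‖x - z j‖ ≤ (∏ k, max ‖x - w k‖ c) * Real.exp (1 / c * (2 * m * Real.sqrt δ)) * 3 := by
    have h4 : ∏ j, ‖x - z j‖ ≤ ∏ j, max ‖x - z j‖ c :=
      Finset.prod_le_prod (fun j _ => norm_nonneg _) (fun j _ => le_max_left _ _)
    refine h4.trans ?_
    rw [← prod_max_eq _ _ (fun j _ => lt_max_of_lt_right hc0),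
      ← prod_max_eq _ _ (fun j _ => lt_max_of_lt_right hc0)]
    refine (Real.exp_le_exp.2 hA).trans (le_of_eq ?_)
    rw [Real.exp_add, Real.exp_add, Real.exp_log (by norm_num : (0 : ℝ) < 3)]
  -- small and big
  have hxl : ∀ k, x - w k = ((a : ℂ) - w k) * (1 - (ρ : ℂ) * (ω * l k)) := fun k => by
    have h4 : ((a : ℂ) - w k) * (1 - (ρ : ℂ) * (ω * l k)) =
        ((a : ℂ) - w k) - (ρ : ℂ) * ω * (((a : ℂ) - w k) * l k) := by ring
    rw [h4, hal, hx]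
    ring
  have hsm : ∀ k, ¬ 2 / (1 - r) < ‖l k‖ →
      max ‖x - w k‖ c ≤ ‖(a : ℂ) - w k‖ * ‖1 - (ρ : ℂ) * (ω * l k)‖ := fun k hk => by
    rw [← norm_mul, ← hxl]
    refine max_le le_rfl ?_
    have h4 : ‖l k‖ ≤ 2 / (1 - r) := not_lt.1 hk
    rw [le_div_iff₀ hr] at h4
    have h5 : (1 - r) / 2 ≤ ‖(a : ℂ) - w k‖ := by
      have := hN k
      nlinarith [hNpos k]
    have h6 : ‖(a : ℂ) - w k‖ ≤ ‖x - w k‖ + ‖(ρ : ℂ) * ω‖ := by
      have h7 : (a : ℂ) - w k = (x - w k) + (ρ : ℂ) * ω := by rw [hx]; ring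
      rw [h7]
      exact norm_add_le _ _
    rw [hxn] at h6
    rw [hc]
    linarith
  have hbg : ∀ k, 2 / (1 - r) < ‖l k‖ → ‖(a : ℂ) - w k‖ ≤ (1 - r) / 2 := fun k hk => by
    rw [div_lt_iff₀ hr] at hk
    have := hN k
    nlinarith [hNpos k]
  have hbg1 : ∀ k, 2 / (1 - r) < ‖l k‖ → max ‖x - w k‖ c ≤ 1 := fun k hk => by
    refine max_le ?_ hc1
    have h4 := hbg k hk
    have h5 : ‖x - w k‖ ≤ ‖(a : ℂ) - w k‖ + ‖(ρ : ℂ) * ω‖ := by
      have h7 : x - w k = ((a : ℂ) - w k) - (ρ : ℂ) * ω := by rw [hx]; ring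
      rw [h7]
      exact norm_sub_le _ _
    rw [hxn] at h5
    linarith
  have hbg2 : ∀ k, 2 / (1 - r) < ‖l k‖ → (1 - r) / 2 ≤ 1 - ‖w k‖ := fun k hk => by
    have h4 := hbg k hk
    have h5 : ‖w k‖ ≤ ‖(a : ℂ)‖ + ‖(a : ℂ) - w k‖ := by
      have h7 : w k = (a : ℂ) - ((a : ℂ) - w k) := by ring
      calc ‖w k‖ = ‖(a : ℂ) - ((a : ℂ) - w k)‖ := by rw [← h7]
        _ ≤ _ := norm_sub_le _ _
    rw [hna] at h5
    linarith
  have hC : ∏ k, max ‖x - w k‖ c ≤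
      ∏ k ∈ Finset.univ.filter (fun k => ¬ 2 / (1 - r) < ‖l k‖),
        (‖(a : ℂ) - w k‖ * ‖1 - (ρ : ℂ) * (ω * l k)‖) := by
    rw [← Finset.prod_filter_mul_prod_filter_not Finset.univ (fun k => 2 / (1 - r) < ‖l k‖)
      (fun k => max ‖x - w k‖ c)]
    have h4 : ∏ k ∈ Finset.univ.filter (fun k => 2 / (1 - r) < ‖l k‖), max ‖x - w k‖ c ≤ 1 :=
      Finset.prod_le_one (fun k _ => (lt_max_of_lt_right hc0).le)
        (fun k hk => hbg1 k (Finset.mem_filter.1 hk).2)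
    have h5 : ∏ k ∈ Finset.univ.filter (fun k => ¬ 2 / (1 - r) < ‖l k‖), max ‖x - w k‖ c ≤
        ∏ k ∈ Finset.univ.filter (fun k => ¬ 2 / (1 - r) < ‖l k‖),
          (‖(a : ℂ) - w k‖ * ‖1 - (ρ : ℂ) * (ω * l k)‖) :=
      Finset.prod_le_prod (fun k _ => (lt_max_of_lt_right hc0).le)
        (fun k hk => hsm k (Finset.mem_filter.1 hk).2)
    have h6 : 0 ≤ ∏ k ∈ Finset.univ.filter (fun k => ¬ 2 / (1 - r) < ‖l k‖), max ‖x - w k‖ c :=
      Finset.prod_nonneg fun k _ => (lt_max_of_lt_right hc0).le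
    calc _ ≤ 1 * ∏ k ∈ Finset.univ.filter (fun k => ¬ 2 / (1 - r) < ‖l k‖), max ‖x - w k‖ c :=
          mul_le_mul_of_nonneg_right h4 h6
      _ ≤ _ := by rw [one_mul]; exact h5
  have hE : ∏ k ∈ Finset.univ.filter (fun k => 2 / (1 - r) < ‖l k‖), ‖l k‖ ≤
      Real.exp (2 / (1 - r) * (m * Real.sqrt δ)) := by
    have h4 : ∏ k ∈ Finset.univ.filter (fun k => 2 / (1 - r) < ‖l k‖), ‖l k‖ ≤
        ∏ k ∈ Finset.univ.filter (fun k => 2 / (1 - r) < ‖l k‖), Real.exp ‖l k‖ :=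
      Finset.prod_le_prod (fun k _ => norm_nonneg _)
        (fun k _ => by linarith [Real.add_one_le_exp ‖l k‖])
    refine h4.trans ?_
    rw [← Real.exp_sum]
    refine Real.exp_le_exp.2 ?_
    have h5 : ∑ k ∈ Finset.univ.filter (fun k => 2 / (1 - r) < ‖l k‖), ‖l k‖ ≤
        ∑ k ∈ Finset.univ.filter (fun k => 2 / (1 - r) < ‖l k‖),
          2 / (1 - r) * ((1 - ‖w k‖) * ‖l k‖) := by
      refine Finset.sum_le_sum fun k hk => ?_
      have h6 := hbg2 k (Finset.mem_filter.1 hk).2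
      have h7 : 1 ≤ 2 / (1 - r) * (1 - ‖w k‖) := by
        rw [div_mul_eq_mul_div, one_le_div hr]
        linarith
      calc ‖l k‖ = 1 * ‖l k‖ := (one_mul _).symm
        _ ≤ 2 / (1 - r) * (1 - ‖w k‖) * ‖l k‖ := mul_le_mul_of_nonneg_right h7 (norm_nonneg _)
        _ = _ := by ring
    rw [← Finset.mul_sum] at h5
    have h8 : ∑ k ∈ Finset.univ.filter (fun k => 2 / (1 - r) < ‖l k‖), (1 - ‖w k‖) * ‖l k‖ ≤
        ∑ k, (1 - ‖w k‖) * ‖l k‖ :=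
      Finset.sum_le_sum_of_subset_of_nonneg (Finset.filter_subset _ _)
        (fun k _ _ => mul_nonneg (hw0 k) (norm_nonneg _))
    have h9 : δ ≤ Real.sqrt δ := by
      rw [Real.le_sqrt hδ0.le hδ0.le]
      nlinarith
    have h10 : δ * m ≤ m * Real.sqrt δ := by nlinarith
    refine h5.trans (mul_le_mul_of_nonneg_left (h8.trans (hD.trans h10)) ?_)
    positivity
  -- conclusion
  have hP : ∏ k, ‖(a : ℂ) - w k‖ * ‖l k‖ = 1 := Finset.prod_eq_one fun k _ => hN k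
  have hI : ((m : ℝ) + 1) * ‖∫ τ in (0 : ℝ)..ρ, ∏ k, (1 - (τ : ℂ) * (ω * l k))‖ =
      (∏ j, ‖x - z j‖) * ∏ k, ‖l k‖ := by
    rw [hF]
    rw [Finset.prod_mul_distrib] at hP
    calc _ = ((m : ℝ) + 1) * ‖∫ τ in (0 : ℝ)..ρ, ∏ k, (1 - (τ : ℂ) * (ω * l k))‖ *
        ((∏ k, ‖(a : ℂ) - w k‖) * ∏ k, ‖l k‖) := by rw [hP, mul_one]
      _ = _ := by ring
  obtain ⟨Q, hQ⟩ : ∃ Q : ℝ, Q = ∏ k ∈ Finset.univ.filter (fun k => ¬ 2 / (1 - r) < ‖l k‖),
    ‖1 - (ρ : ℂ) * (ω * l k)‖ := ⟨_, rfl⟩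
  rw [← hQ]
  have hQ0 : 0 ≤ Q := by rw [hQ]; exact Finset.prod_nonneg fun k _ => norm_nonneg _
  have hl0 : 0 ≤ ∏ k, ‖l k‖ := Finset.prod_nonneg fun k _ => norm_nonneg _
  have hG : (∏ j, ‖x - z j‖) * ∏ k, ‖l k‖ ≤
      3 * Real.exp (m * (10 / (1 - r) * Real.sqrt δ)) * Q := by
    have h4 : (∏ k ∈ Finset.univ.filter (fun k => ¬ 2 / (1 - r) < ‖l k‖),
        (‖(a : ℂ) - w k‖ * ‖1 - (ρ : ℂ) * (ω * l k)‖)) * ∏ k, ‖l k‖ =
        Q * ∏ k ∈ Finset.univ.filter (fun k => 2 / (1 - r) < ‖l k‖), ‖l k‖ := by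
      rw [← Finset.prod_filter_mul_prod_filter_not Finset.univ (fun k => 2 / (1 - r) < ‖l k‖)
        (fun k => ‖l k‖), Finset.prod_mul_distrib, ← hQ]
      have h5 : (∏ k ∈ Finset.univ.filter (fun k => ¬ 2 / (1 - r) < ‖l k‖), ‖(a : ℂ) - w k‖) *
          ∏ k ∈ Finset.univ.filter (fun k => ¬ 2 / (1 - r) < ‖l k‖), ‖l k‖ = 1 := by
        rw [← Finset.prod_mul_distrib]
        exact Finset.prod_eq_one fun k _ => hN k
      calc _ = Q * (∏ k ∈ Finset.univ.filter (fun k => 2 / (1 - r) < ‖l k‖), ‖l k‖) *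
          ((∏ k ∈ Finset.univ.filter (fun k => ¬ 2 / (1 - r) < ‖l k‖), ‖(a : ℂ) - w k‖) *
          ∏ k ∈ Finset.univ.filter (fun k => ¬ 2 / (1 - r) < ‖l k‖), ‖l k‖) := by ring
        _ = _ := by rw [h5, mul_one]
    have h6 : Real.exp (m * (10 / (1 - r) * Real.sqrt δ)) =
        Real.exp (1 / c * (2 * m * Real.sqrt δ)) * Real.exp (2 / (1 - r) * (m * Real.sqrt δ)) := by
      rw [← Real.exp_add]
      congr 1
      rw [hc]
      field_simp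
      ring
    calc (∏ j, ‖x - z j‖) * ∏ k, ‖l k‖
        ≤ (∏ k, max ‖x - w k‖ c) * Real.exp (1 / c * (2 * m * Real.sqrt δ)) * 3 * ∏ k, ‖l k‖ :=
          mul_le_mul_of_nonneg_right hB hl0
      _ ≤ (∏ k ∈ Finset.univ.filter (fun k => ¬ 2 / (1 - r) < ‖l k‖),
          (‖(a : ℂ) - w k‖ * ‖1 - (ρ : ℂ) * (ω * l k)‖)) *
            Real.exp (1 / c * (2 * m * Real.sqrt δ)) * 3 * ∏ k, ‖l k‖ := by
          refine mul_le_mul_of_nonneg_right (mul_le_mul_of_nonneg_right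
            (mul_le_mul_of_nonneg_right hC (Real.exp_pos _).le) (by norm_num)) hl0
      _ = 3 * Real.exp (1 / c * (2 * m * Real.sqrt δ)) *
          ((∏ k ∈ Finset.univ.filter (fun k => ¬ 2 / (1 - r) < ‖l k‖),
          (‖(a : ℂ) - w k‖ * ‖1 - (ρ : ℂ) * (ω * l k)‖)) * ∏ k, ‖l k‖) := by ring
      _ = 3 * Real.exp (1 / c * (2 * m * Real.sqrt δ)) *
          (Q * ∏ k ∈ Finset.univ.filter (fun k => 2 / (1 - r) < ‖l k‖), ‖l k‖) := by rw [h4]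
      _ ≤ 3 * Real.exp (1 / c * (2 * m * Real.sqrt δ)) *
          (Q * Real.exp (2 / (1 - r) * (m * Real.sqrt δ))) :=
          mul_le_mul_of_nonneg_left (mul_le_mul_of_nonneg_left hE hQ0)
            (mul_nonneg (by norm_num) (Real.exp_pos _).le)
      _ = _ := by rw [h6]; ring
  rw [← hI] at hG
  have hm1 : (0 : ℝ) < (m : ℝ) + 1 := by positivity
  calc ‖∫ τ in (0 : ℝ)..ρ, ∏ k, (1 - (τ : ℂ) * (ω * l k))‖
      = (((m : ℝ) + 1) * ‖∫ τ in (0 : ℝ)..ρ, ∏ k, (1 - (τ : ℂ) * (ω * l k))‖) / ((m : ℝ) + 1) :=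
        (mul_div_cancel_left₀ _ hm1.ne').symm
    _ ≤ (3 * Real.exp (m * (10 / (1 - r) * Real.sqrt δ)) * Q) / ((m : ℝ) + 1) :=
        div_le_div_of_nonneg_right hG hm1.le
    _ = _ := by ring

end Pool.Agent.H333.BV
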